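import Pool.Agent.Lib.MP_24597f_pr.Final

/-!
The speeds of iterated biased walks on traces need not be increasing in the level.
-/

open MeasureTheory
open Pool.Agent.Lib.MP_24597f_pr

namespace Pool.Agent.Results.MP_24597f_pr.Main

/-- In every dimension `d = n + 2 ≥ 2` there are step laws `p₀`, `p₁` satisfying (a), (b), (c)
such that, with `p₁` used at every level `i ≥ 1`, both `X 1` and `X 2` are ballistic and the
speed of `X 2` is strictly smaller than the speed of `X 1`. -/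
theorem result (n : ℕ) : ∃ p₀ p₁ : Dir (n + 2) → ℝ,
    (∀ e, 0 < p₀ e) ∧ (∑ e, p₀ e = 1) ∧ (∀ e, 0 < p₁ e) ∧ (∑ e, p₁ e = 1) ∧
    (∀ j, 0 ≤ drift p₀ j) ∧ 0 < drift p₀ 0 ∧ 0 < ∑ j, drift p₀ j * biasDir p₁ j ∧
    (∃ (Ω : Type) (_ : MeasurableSpace Ω) (P : Measure Ω) (X : ℕ → ℕ → Ω → V (n + 2)),
      IsProbabilityMeasure P ∧ IsIteratedWalk P (fun i => if i = 0 then p₀ else p₁) X) ∧
    ∃ κ₁ κ₂ : ℝ, 0 < κ₂ ∧ κ₂ < κ₁ ∧
      ∀ (Ω : Type) [MeasurableSpace Ω] (P : Measure Ω) [IsProbabilityMeasure P]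
        (X : ℕ → ℕ → Ω → V (n + 2)), IsIteratedWalk P (fun i => if i = 0 then p₀ else p₁) X →
        HasSpeed P (X 1) (κ₁ • drift p₀) ∧ HasSpeed P (X 2) (κ₂ • drift p₀) :=
  not_monotone (j := 1) (by simp)

end Pool.Agent.Results.MP_24597f_pr.Main
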